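import Mathlib
import Pool.Agent.Q24.PF.Pil
import Pool.Agent.Helper122.FreeProd

set_option autoImplicit false

/-!
# Free factors from bases, a degenerate projective pile, profinite completions
-/

namespace Run7.h900.Pile

open Pool.Agent.Q24.PF Pool.Agent.Helper122.Cuts

/-- a part of a basis generates a free factor -/
theorem factor_of_bas {F F' : Type} [Group F] [Group F'] (e : F ≃* F') {S T : Set F'}
    {H : Subgroup F'} (hS : Bas S H) (hST : Bas (S ∪ T) ⊤) :
    ∃ K : Subgroup F,
      Function.Bijective (Monoid.Coprod.lift (H.comap e.toMonoidHom).subtype K.subtype) := by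
  classical
  let HF := H.comap e.toMonoidHom
  let j : F' →* F := e.symm.toMonoidHom
  have hej : ∀ f, e (j f) = f := fun f => e.apply_symm_apply f
  have hje : ∀ f, j (e f) = f := fun f => e.symm_apply_apply f
  have hjH : ∀ s ∈ H, j s ∈ HF := by
    intro s hs
    change e (j s) ∈ H
    rwa [hej]
  have hSH : ∀ s ∈ S, s ∈ H := by
    intro s hs
    rw [← hS.2]
    exact Subgroup.subset_closure hs
  let K' : Subgroup F := Subgroup.closure (j '' (T \ S))
  have hKT' : ∀ s ∈ T, s ∉ S → j s ∈ K' := fun s hs hs2 =>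
    Subgroup.subset_closure ⟨s, ⟨hs, hs2⟩, rfl⟩
  refine ⟨K', ?_⟩
  obtain ⟨e2, he2⟩ := hST.retr
  let C := Monoid.Coprod HF K'
  let g0 : ↥(S ∪ T) → C := fun s =>
    if hs : (s : F') ∈ S then Monoid.Coprod.inl ⟨j s, hjH _ (hSH _ hs)⟩
    else Monoid.Coprod.inr ⟨j s, hKT' _ (s.2.resolve_left hs) hs⟩
  let Ψ0 : F' →* C := ((FreeGroup.lift g0).comp e2.toMonoidHom).comp
    (Subgroup.topEquiv : (⊤ : Subgroup F') ≃* F').symm.toMonoidHom
  have hΨ0 : ∀ s (hs : s ∈ S ∪ T), Ψ0 s = g0 ⟨s, hs⟩ := by
    intro s hs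
    change (FreeGroup.lift g0) (e2 ⟨s, Subgroup.mem_top s⟩) = _
    have := he2 ⟨s, hs⟩ (Subgroup.mem_top s)
    rw [this, FreeGroup.lift_apply_of]
  let Ψ : F →* C := Ψ0.comp e.toMonoidHom
  let l : C →* F := Monoid.Coprod.lift HF.subtype K'.subtype
  have hΨj : ∀ f, Ψ (j f) = Ψ0 f := by
    intro f
    change Ψ0 (e (j f)) = Ψ0 f
    rw [hej]
  have hlΨ0 : ∀ f, l (Ψ0 f) = j f := by
    have : l.comp Ψ0 = j := by
      apply MonoidHom.eq_of_eqOn_dense hST.2
      intro s hs
      rw [MonoidHom.comp_apply, hΨ0 s hs]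
      simp only [g0]
      split_ifs with h
      · exact Monoid.Coprod.lift_apply_inl _ _ _
      · exact Monoid.Coprod.lift_apply_inr _ _ _
    exact fun f => DFunLike.congr_fun this f
  have hlΨ : ∀ f, l (Ψ f) = f := by
    intro f
    change l (Ψ0 (e f)) = f
    rw [hlΨ0, hje]
  have hΨH : ∀ h : HF, Ψ h = Monoid.Coprod.inl h := by
    have h1 : ∀ f, ∀ hf : f ∈ H, Ψ0 f = Monoid.Coprod.inl ⟨j f, hjH f hf⟩ := by
      intro f hf
      have hf2 : f ∈ Subgroup.closure S := by rwa [hS.2]
      induction hf2 using Subgroup.closure_induction with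
      | mem s hs =>
        rw [hΨ0 s (Or.inl hs)]
        simp only [g0]
        rw [dif_pos hs]
      | one =>
        rw [map_one]
        have : (⟨j 1, hjH 1 hf⟩ : HF) = 1 := Subtype.ext (map_one j)
        rw [this, map_one]
      | mul a b ha hb iha ihb =>
        have ha' : a ∈ H := by rwa [hS.2] at ha
        have hb' : b ∈ H := by rwa [hS.2] at hb
        rw [map_mul, iha ha', ihb hb', ← map_mul]
        congr 1
        exact Subtype.ext (map_mul j a b).symm
      | inv a ha iha =>
        have ha' : a ∈ H := by rwa [hS.2] at ha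
        rw [map_inv, iha ha', ← map_inv]
        congr 1
        exact Subtype.ext (map_inv j a).symm
    rintro ⟨h, hh⟩
    change Ψ0 (e h) = _
    have hh' : e h ∈ H := hh
    rw [h1 (e h) hh']
    congr 1
    exact Subtype.ext (hje h)
  have hΨK : ∀ κ : K', Ψ κ = Monoid.Coprod.inr κ := by
    rintro ⟨κ, hκ⟩
    have hκ2 : κ ∈ Subgroup.closure (j '' (T \ S)) := hκ
    change Ψ κ = _
    induction hκ2 using Subgroup.closure_induction with
    | mem s hs =>
      rcases hs with ⟨s, ⟨hs1, hs2⟩, rfl⟩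
      rw [hΨj, hΨ0 s (Or.inr hs1)]
      simp only [g0]
      rw [dif_neg hs2]
    | one =>
      rw [map_one]
      have : (⟨1, hκ⟩ : K') = 1 := rfl
      rw [this, map_one]
    | mul a b ha hb iha ihb =>
      rw [map_mul, iha ha, ihb hb, ← map_mul]
      rfl
    | inv a ha iha =>
      rw [map_inv, iha ha, ← map_inv]
      rfl
  have hΨl : ∀ c, Ψ (l c) = c := by
    have : Ψ.comp l = MonoidHom.id C := by
      apply Monoid.Coprod.hom_ext
      · apply MonoidHom.ext
        intro h
        change Ψ (l (Monoid.Coprod.inl h)) = Monoid.Coprod.inl h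
        have h1 : l (Monoid.Coprod.inl h) = h := Monoid.Coprod.lift_apply_inl _ _ _
        rw [h1]
        exact hΨH h
      · apply MonoidHom.ext
        intro h
        change Ψ (l (Monoid.Coprod.inr h)) = Monoid.Coprod.inr h
        have h1 : l (Monoid.Coprod.inr h) = h := Monoid.Coprod.lift_apply_inr _ _ _
        rw [h1]
        exact hΨK h
    exact fun c => DFunLike.congr_fun this c
  exact ⟨Function.LeftInverse.injective hΨl, Function.RightInverse.surjective hlΨ⟩

section degenerate

variable (G : Type) [Group G] [TopologicalSpace G] [IsTopologicalGroup G]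

/-- the pile which consists of a fixed point and a regular orbit -/
def degPile : Pile G (Unit ⊕ G) where
  act x g := Sum.elim (fun _ => Sum.inl ()) (fun y => Sum.inr (y * g)) x
  act_one := by
    rintro (x | x)
    · rfl
    · simp
  act_mul := by
    rintro (x | x) g h
    · rfl
    · simp [mul_assoc]
  cont := by
    have h1 : Continuous (Sum.elim (fun _ : Unit × G => (Sum.inl () : Unit ⊕ G))
        (fun p : G × G => (Sum.inr (p.1 * p.2) : Unit ⊕ G))) :=
      continuous_const.sumElim (continuous_inr.comp continuous_mul)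
    have h2 := h1.comp (Homeomorph.sumProdDistrib (X := Unit) (Y := G) (Z := G)).continuous
    convert h2 using 1
    funext x
    rcases x with ⟨x | x, g⟩ <;> rfl

theorem degPile_stab : (degPile G).stab (Sum.inl ()) = ⊤ := by
  rw [eq_top_iff]
  intro g _
  rfl

theorem degPile_projective : IsProjective (degPile G) := by
  intro A X B Y _ _ _ _ _ _ _ _ _ _ _ _ _ _ 𝒜 ℬ φ α hepi hrig
  obtain ⟨y, hy⟩ := hepi.2.1 (φ.map (Sum.inl ()))
  obtain ⟨z, hz⟩ := hepi.2.1 (φ.map (Sum.inr 1))
  have hφ : ∀ g, φ.hom g ∈ 𝒜.stab (α.map y) := by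
    intro g
    rw [𝒜.mem_stab, hy, ← φ.equivariant]
    rfl
  have hb := hrig.1 y
  let r : ℬ.stab y →* 𝒜.stab (α.map y) :=
    (α.hom.comp (ℬ.stab y).subtype).codRestrict (𝒜.stab (α.map y)) (fun b => hb.mapsTo b.2)
  have hr : Function.Bijective r := by
    constructor
    · intro a b hab
      apply Subtype.ext
      exact hb.injOn a.2 b.2 (congrArg Subtype.val hab)
    · rintro ⟨a, ha⟩
      obtain ⟨b, hb1, hb2⟩ := hb.surjOn ha
      exact ⟨⟨b, hb1⟩, Subtype.ext hb2⟩
  let e := MulEquiv.ofBijective r hr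
  let f : G →* 𝒜.stab (α.map y) := φ.hom.codRestrict _ hφ
  have hf : Continuous f := φ.hom_cont.subtype_mk _
  let γ : G →* B := ((ℬ.stab y).subtype.comp e.symm.toMonoidHom).comp f
  have hγc : Continuous γ :=
    (continuous_of_discreteTopology (f := fun a => ((e.symm a : ℬ.stab y) : B))).comp hf
  have hγs : ∀ g, γ g ∈ ℬ.stab y := fun g => (e.symm (f g)).2
  have hαγ : ∀ g, α.hom (γ g) = φ.hom g := by
    intro g
    have h1 : e (e.symm (f g)) = f g := e.apply_symm_apply _
    exact congrArg Subtype.val h1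
  refine ⟨⟨γ, Sum.elim (fun _ => y) (fun g => ℬ.act z (γ g)), hγc, ?_, ?_⟩, hαγ, ?_⟩
  · exact continuous_const.sumElim (ℬ.cont.comp (continuous_const.prodMk hγc))
  · rintro (x | x) g
    · exact (hγs g).symm
    · change ℬ.act z (γ (x * g)) = ℬ.act (ℬ.act z (γ x)) (γ g)
      rw [map_mul, ℬ.act_mul]
  · rintro (x | x)
    · exact hy
    · change α.map (ℬ.act z (γ x)) = φ.map (Sum.inr x)
      rw [α.equivariant, hz, hαγ, ← φ.equivariant]
      change φ.map (Sum.inr (1 * x)) = _
      rw [one_mul]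

end degenerate

/-- profinite completions exist -/
theorem exists_completion (F : Type) [Group F] :
    ∃ (G : Type) (_ : Group G) (_ : TopologicalSpace G) (_ : IsTopologicalGroup G)
      (_ : CompactSpace G) (_ : T2Space G) (_ : TotallyDisconnectedSpace G) (ι : F →* G),
      DenseRange ι ∧ ∀ (Q : Type) [Group Q] [Finite Q] (φ : F →* Q),
        ∃ ψ : G →* Q, (∀ f, ψ (ι f) = φ f) ∧ IsOpen (ψ.ker : Set G) := by
  let C := ProfiniteGrp.ProfiniteCompletion.completion (GrpCat.of F)
  refine ⟨C, inferInstance, inferInstance, inferInstance, inferInstance, inferInstance,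
    inferInstance, (ProfiniteGrp.ProfiniteCompletion.eta (GrpCat.of F)).hom,
    ProfiniteGrp.ProfiniteCompletion.denseRange (GrpCat.of F), ?_⟩
  intro Q _ _ φ
  let tQ : TopologicalSpace Q := ⊥
  have dQ : DiscreteTopology Q := ⟨rfl⟩
  let P : ProfiniteGrp := ProfiniteGrp.of Q
  let f : GrpCat.of F ⟶ GrpCat.of P := GrpCat.ofHom φ
  let L := ProfiniteGrp.ProfiniteCompletion.lift (P := P) f
  refine ⟨L.hom.toMonoidHom, ?_, ?_⟩
  · intro x
    have h := ProfiniteGrp.ProfiniteCompletion.lift_eta (P := P) f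
    exact CategoryTheory.ConcreteCategory.congr_hom h x
  · have h1 : Continuous L.hom := L.hom.continuous_toFun
    exact (isOpen_discrete ({1} : Set Q)).preimage h1

end Run7.h900.Pile
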