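import Pool.Agent.Helper183.Geo.One
import Pool.Agent.Helper183.Geo.Transfer

set_option autoImplicit false
open MeasureTheory Set
namespace Run7.h900.LineVol

open Geo

/-- the orbit map: `(s, n) ↦ s (x + ∑ n_i c_i)` -/
noncomputable def act {k : ℕ} (c : Fin k → ℝ) (q : ℤˣ × (Fin k → ℤ)) (x : ℝ) : ℝ :=
  ((q.1 : ℤ) : ℝ) * (x + ∑ i, (q.2 i : ℝ) * c i)

theorem units_sq (s : ℤˣ) : (((s : ℤ) : ℝ)) * ((s : ℤ) : ℝ) = 1 := by
  have h := Int.units_mul_self s
  have h1 : ((s * s : ℤˣ) : ℤ) = 1 := by rw [h]; rfl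
  rw [Units.val_mul] at h1
  exact_mod_cast h1

theorem units_cases (s : ℤˣ) : (((s : ℤ) : ℝ)) = 1 ∨ (((s : ℤ) : ℝ)) = -1 := by
  rcases Int.units_eq_one_or s with h | h <;> subst h <;> simp

/-- moving one step in the lattice of words -/
def step {k : ℕ} (e : Fin k → ℤˣ) (q : ℤˣ × (Fin k → ℤ)) (i : Fin k) : ℤˣ × (Fin k → ℤ) :=
  (q.1 * e i, fun j => q.2 j + if j = i then ((q.1 * e i : ℤˣ) : ℤ) else 0)

theorem act_step {k : ℕ} (c : Fin k → ℝ) (e : Fin k → ℤˣ) (q : ℤˣ × (Fin k → ℤ)) (i : Fin k) (x : ℝ) :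
    act c (step e q i) x = ((e i : ℤ) : ℝ) * act c q x + c i := by
  unfold act step
  have h : ∑ j, ((q.2 j + if j = i then ((q.1 * e i : ℤˣ) : ℤ) else 0 : ℤ) : ℝ) * c j =
      ∑ j, (q.2 j : ℝ) * c j + (((q.1 * e i : ℤˣ) : ℤ) : ℝ) * c i := by
    have h1 : ∀ j, ((q.2 j + if j = i then ((q.1 * e i : ℤˣ) : ℤ) else 0 : ℤ) : ℝ) * c j =
        (q.2 j : ℝ) * c j + if j = i then (((q.1 * e i : ℤˣ) : ℤ) : ℝ) * c i else 0 := by
      intro j
      split_ifs with h2
      · subst h2; push_cast; ring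
      · push_cast; ring
    rw [Finset.sum_congr rfl fun j _ => h1 j, Finset.sum_add_distrib, Finset.sum_ite_eq' Finset.univ i]
    simp
  simp only [h]
  have h2 := units_sq (q.1 * e i)
  have h3 : (((q.1 * e i : ℤˣ) : ℤ) : ℝ) = ((q.1 : ℤ) : ℝ) * ((e i : ℤ) : ℝ) := by
    push_cast; ring
  rw [mul_add, mul_add, ← mul_assoc, h2, h3]
  ring

/-- the box of words -/
noncomputable def box (k : ℕ) (N : ℕ) : Finset (ℤˣ × (Fin k → ℤ)) :=
  Finset.univ ×ˢ Fintype.piFinset (fun _ : Fin k => Finset.Ico (-(N : ℤ)) N)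

theorem box_card (k N : ℕ) : (box k N).card = 2 * (2 * N) ^ k := by
  unfold box
  rw [Finset.card_product, Fintype.card_piFinset]
  simp only [Int.card_Ico, Finset.prod_const, Finset.card_univ, Fintype.card_fin]
  have h1 : ((N : ℤ) - -(N : ℤ)).toNat = 2 * N := by omega
  rw [h1]
  congr 1

theorem step_mem {k N : ℕ} (e : Fin k → ℤˣ) {q : ℤˣ × (Fin k → ℤ)} (hq : q ∈ box k N) (i : Fin k) :
    step e q i ∈ box k (N + 1) := by
  unfold box at hq ⊢
  rw [Finset.mem_product, Fintype.mem_piFinset] at hq ⊢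
  refine ⟨Finset.mem_univ _, fun j => ?_⟩
  have h1 := Finset.mem_Ico.1 (hq.2 j)
  rw [Finset.mem_Ico]
  have h2 : ((q.1 * e i : ℤˣ) : ℤ) = 1 ∨ ((q.1 * e i : ℤˣ) : ℤ) = -1 := by
    rcases Int.units_eq_one_or (q.1 * e i) with h | h <;> rw [h] <;> simp
  show -((N + 1 : ℕ) : ℤ) ≤ (q.2 j + if j = i then ((q.1 * e i : ℤˣ) : ℤ) else 0) ∧
    (q.2 j + if j = i then ((q.1 * e i : ℤˣ) : ℤ) else 0) < ((N + 1 : ℕ) : ℤ)
  push_cast
  split_ifs with h3
  · push_cast at h2
    rcases h2 with h2 | h2 <;> rw [h2] <;> constructor <;> linarith [h1.1, h1.2]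
  · constructor <;> linarith [h1.1, h1.2]

open Classical in
/-- orbit counting function -/
noncomputable def cnt {k : ℕ} (c : Fin k → ℝ) (A : Set ℝ) (N : ℕ) (x : ℝ) : ℕ :=
  ((box k N).filter (fun q => act c q x ∈ A)).card

theorem cnt_le {A B : Set ℝ} {k : ℕ} (P : Fin k → Set ℝ) (g : Fin k → ℝ ≃ᵢ ℝ)
    (c : Fin k → ℝ) (e : Fin k → ℤˣ) (hg : ∀ i t, g i t = ((e i : ℤ) : ℝ) * t + c i)
    (hA : A = ⋃ i, P i) (hd : Pairwise fun i j => Disjoint (g i '' P i) (g j '' P j))
    (hB : B = ⋃ i, g i '' P i) (N : ℕ) (x : ℝ) : cnt c A N x ≤ cnt c B (N + 1) x := by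
  classical
  have hex : ∀ q : ℤˣ × (Fin k → ℤ), ∃ i : Option (Fin k), act c q x ∈ A →
      ∃ j, i = some j ∧ act c q x ∈ P j := by
    intro q
    by_cases h : act c q x ∈ A
    · rw [hA] at h
      obtain ⟨i, hi⟩ := mem_iUnion.1 h
      exact ⟨some i, fun _ => ⟨i, rfl, hi⟩⟩
    · exact ⟨none, fun h' => absurd h' h⟩
  choose ι hι using hex
  unfold cnt
  apply Finset.card_le_card_of_injOn
    (fun q => match ι q with | some i => step e q i | none => q)
  · intro q hq
    rw [Finset.mem_coe, Finset.mem_filter] at hq ⊢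
    obtain ⟨j, hj, hPj⟩ := hι q hq.2
    simp only [hj]
    refine ⟨step_mem e hq.1 j, ?_⟩
    rw [act_step, ← hg, hB]
    exact mem_iUnion.2 ⟨j, _, hPj, rfl⟩
  · intro q hq q' hq' h
    rw [Finset.mem_coe, Finset.mem_filter] at hq hq'
    obtain ⟨j, hj, hPj⟩ := hι q hq.2
    obtain ⟨j', hj', hPj'⟩ := hι q' hq'.2
    simp only [hj, hj'] at h
    have h1 : g j (act c q x) = g j' (act c q' x) := by
      rw [hg, hg, ← act_step, ← act_step, h]
    have h2 : j = j' := by
      by_contra hne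
      exact Set.disjoint_left.1 (hd hne) ⟨_, hPj, rfl⟩ ⟨_, hPj', h1.symm⟩
    subst h2
    have h3 : q.1 = q'.1 := by
      have := congrArg Prod.fst h
      exact mul_right_cancel this
    have h4 : q.2 = q'.2 := by
      funext l
      have := congrFun (congrArg Prod.snd h) l
      simp only [step, h3] at this
      exact add_right_cancel this
    exact Prod.ext h3 h4

theorem lint_act {k : ℕ} (c : Fin k → ℝ) (A : Set ℝ) (hA : MeasurableSet A) (q : ℤˣ × (Fin k → ℤ)) :
    ∫⁻ x, A.indicator 1 (act c q x) = volume A := by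
  have h0 : ∫⁻ x : ℝ, A.indicator (1 : ℝ → ENNReal) x = volume A := lintegral_indicator_one hA
  have hm : Measurable (A.indicator (1 : ℝ → ENNReal)) := measurable_one.indicator hA
  unfold act
  rcases units_cases q.1 with h | h
  · rw [h]
    simp only [one_mul]
    rw [lintegral_add_right_eq_self (fun x => A.indicator (1 : ℝ → ENNReal) x), h0]
  · rw [h]
    simp only [neg_mul, one_mul]
    rw [lintegral_add_right_eq_self (fun x => A.indicator (1 : ℝ → ENNReal) (-x))]
    have h1 := (Measure.measurePreserving_neg (volume : Measure ℝ)).lintegral_comp hm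
    rw [h1, h0]

theorem lint_cnt {k : ℕ} (c : Fin k → ℝ) (A : Set ℝ) (hA : MeasurableSet A) (N : ℕ) :
    ∫⁻ x, (cnt c A N x : ENNReal) = ((box k N).card : ENNReal) * volume A := by
  classical
  have h1 : ∀ x, (cnt c A N x : ENNReal) = ∑ q ∈ box k N, A.indicator (1 : ℝ → ENNReal) (act c q x) := by
    intro x
    unfold cnt
    rw [Finset.card_filter, Nat.cast_sum]
    apply Finset.sum_congr rfl
    intro q _
    by_cases h : act c q x ∈ A
    · simp [h]
    · simp [h]
  simp only [h1]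
  rw [lintegral_finsetSum]
  · rw [Finset.sum_congr rfl fun q _ => lint_act c A hA q, Finset.sum_const, nsmul_eq_mul]
  · intro q _
    have hm : Measurable (A.indicator (1 : ℝ → ENNReal)) := measurable_one.indicator hA
    have h2 : Measurable (act c q) := by
      unfold act
      fun_prop
    exact hm.comp h2

/-- equidecomposability with arbitrary pieces does not increase the length of measurable sets of
finite length -/
theorem arb_le {A B : Set ℝ} (hA : MeasurableSet A) (hB : MeasurableSet B) (hBf : volume B ≠ ⊤)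
    (h : ArbEq A B) : volume A ≤ volume B := by
  obtain ⟨k, P, g, hd1, hAU, hd2, hBU⟩ := h
  have hex : ∀ i, ∃ (c : ℝ) (e : ℤˣ), ∀ t, g i t = ((e : ℤ) : ℝ) * t + c := by
    intro i
    obtain ⟨c, hc | hc⟩ := C15.TL.real_isom (g i)
    · exact ⟨c, 1, fun t => by rw [hc]; simp⟩
    · exact ⟨c, -1, fun t => by rw [hc]; simp⟩
  choose c e hg using hex
  have hN : ∀ N : ℕ, ((box k N).card : ENNReal) * volume A ≤ ((box k (N + 1)).card : ENNReal) * volume B := by
    intro N
    rw [← lint_cnt c A hA, ← lint_cnt c B hB]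
    apply lintegral_mono
    intro x
    beta_reduce
    exact_mod_cast cnt_le P g c e hg hAU hd2 hBU N x
  have hAf : volume A ≠ ⊤ := by
    intro hA'
    have h1 := hN 1
    rw [hA'] at h1
    have h2 : ((box k 1).card : ENNReal) ≠ 0 := by
      rw [box_card]; positivity
    rw [ENNReal.mul_top h2, top_le_iff] at h1
    exact ENNReal.mul_ne_top (ENNReal.natCast_ne_top _) hBf h1
  rw [← ENNReal.toReal_le_toReal hAf hBf]
  have h2 : ∀ N : ℕ, (volume A).toReal ≤ (1 + 1 / ((N : ℝ) + 1)) ^ k * (volume B).toReal := by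
    intro N
    have h3 := hN (N + 1)
    have h4 := ENNReal.toReal_mono (ENNReal.mul_ne_top (ENNReal.natCast_ne_top _) hBf) h3
    rw [ENNReal.toReal_mul, ENNReal.toReal_mul, ENNReal.toReal_natCast, ENNReal.toReal_natCast,
      box_card, box_card] at h4
    push_cast at h4
    have hp : (0 : ℝ) < 2 * (2 * ((N : ℝ) + 1)) ^ k := by positivity
    rw [← mul_le_mul_iff_right₀ hp]
    refine h4.trans (le_of_eq ?_)
    rw [← mul_assoc]
    congr 1
    rw [mul_assoc, ← mul_pow]
    congr 2
    field_simp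
  have h5 : Filter.Tendsto (fun N : ℕ => (1 + 1 / ((N : ℝ) + 1)) ^ k * (volume B).toReal) Filter.atTop
      (nhds ((1 + 0) ^ k * (volume B).toReal)) :=
    ((tendsto_one_div_add_atTop_nhds_zero_nat.const_add 1).pow k).mul_const _
  rw [add_zero, one_pow, one_mul] at h5
  exact ge_of_tendsto' h5 h2

theorem arbEq_symm {A B : Set ℝ} (h : ArbEq A B) : ArbEq B A := by
  obtain ⟨k, P, g, h1, h2, h3, h4⟩ := h
  have hi : ∀ i, (g i).symm '' (g i '' P i) = P i := by
    intro i
    rw [image_image]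
    simp
  refine ⟨k, fun i => g i '' P i, fun i => (g i).symm, h3, h4, ?_, ?_⟩
  · simp only [hi]; exact h1
  · simp only [hi]; exact h2

/-- equidecomposable measurable sets of finite length in the line have the same length -/
theorem arb_eq {A B : Set ℝ} (hA : MeasurableSet A) (hB : MeasurableSet B) (hAf : volume A ≠ ⊤)
    (hBf : volume B ≠ ⊤) (h : ArbEq A B) : volume A = volume B :=
  le_antisymm (arb_le hA hB hBf h) (arb_le hB hA hAf (arbEq_symm h))

theorem body_open {A : Set ℝ} (hA : Body A) : IsOpen A := by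
  rw [← hA.2.1]; exact isOpen_interior

/-- bodies of equal length in the line which are not equidecomposable as bodies -/
theorem line_vol : ∃ A B : Set ℝ, Body A ∧ Body B ∧ volume A = volume B ∧ ¬ BodyEq A B := by
  obtain ⟨A, B, hA, hB, h1, h2⟩ := line_example
  exact ⟨A, B, hA, hB, arb_eq (body_open hA).measurableSet (body_open hB).measurableSet
    hA.1.measure_lt_top.ne hB.1.measure_lt_top.ne h1, h2⟩

/-- the same in the one-dimensional Euclidean space -/
theorem euc_vol : ∃ A B : Set (EuclideanSpace ℝ (Fin 1)), Body A ∧ Body B ∧ volume A = volume B ∧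
    ¬ BodyEq A B := by
  obtain ⟨A, B, hA, hB, h1, h2⟩ := line_vol
  set b : OrthonormalBasis (Fin 1) ℝ ℝ := OrthonormalBasis.singleton (Fin 1) ℝ with hb0
  have hb := b.measurePreserving_repr
  have hb' := b.measurePreserving_repr_symm
  have himg : ∀ s : Set ℝ, (b.repr.toIsometryEquiv : ℝ → EuclideanSpace ℝ (Fin 1)) '' s =
      b.repr.symm ⁻¹' s := by
    intro s
    ext y
    constructor
    · rintro ⟨x, hx, rfl⟩
      simpa using hx
    · intro hy
      exact ⟨b.repr.symm y, hy, by simp⟩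
  have he : ∀ s : Set ℝ, volume s = 0 → volume (b.repr.toIsometryEquiv '' s) = 0 := by
    intro s hs
    rw [himg]
    exact hb'.quasiMeasurePreserving.preimage_null hs
  have he' : ∀ s : Set (EuclideanSpace ℝ (Fin 1)), volume s = 0 →
      volume (b.repr.toIsometryEquiv.symm '' s) = 0 := by
    intro s hs
    have h1 : (b.repr.toIsometryEquiv.symm : EuclideanSpace ℝ (Fin 1) → ℝ) '' s = b.repr ⁻¹' s := by
      ext y
      constructor
      · rintro ⟨x, hx, rfl⟩
        have : b.repr (b.repr.toIsometryEquiv.symm x) = x := b.repr.apply_symm_apply x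
        rw [mem_preimage, this]
        exact hx
      · intro hy
        exact ⟨b.repr y, hy, b.repr.symm_apply_apply y⟩
    rw [h1]
    exact hb.quasiMeasurePreserving.preimage_null hs
  refine ⟨b.repr.toIsometryEquiv '' A, b.repr.toIsometryEquiv '' B, body_image _ he hA,
    body_image _ he hB, ?_, fun h5 => h2 ?_⟩
  · rw [himg, himg, hb'.measure_preimage (body_open hA).measurableSet.nullMeasurableSet,
      hb'.measure_preimage (body_open hB).measurableSet.nullMeasurableSet, h1]
  · have h6 := bodyEq_image b.repr.toIsometryEquiv.symm he' h5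
    have h7 : ∀ s : Set ℝ, b.repr.toIsometryEquiv.symm '' (b.repr.toIsometryEquiv '' s) = s := by
      intro s
      rw [image_image]
      simp
    rwa [h7, h7] at h6

end Run7.h900.LineVol
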