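import Pool.Agent.Run7.h900.PileExt
import Pool.Agent.Q24.PF.Der3

set_option autoImplicit false

/-!
# Derivations which vanish on a point stabilizer of a projective pile lift
-/

namespace Run7.h900.Pile

open Pool.Agent.Q24.PF Pool.Agent.Helper122.Cuts

/-- left translations of the group algebra of `Γ'` by a group over `Γ'` -/
noncomputable def actV {Γ Γ' : Type} [Group Γ] [Group Γ'] (p : Γ →* Γ') :
    Γ →* MulAut (Multiplicative (Γ' →₀ ZMod 2)) :=
  MonoidHom.mk' (fun x => AddEquiv.toMultiplicative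
    { toFun := fun v => tl (p x) v
      invFun := fun v => tl (p x)⁻¹ v
      left_inv := fun v => by beta_reduce; rw [tl_tl, inv_mul_cancel, tl_one]
      right_inv := fun v => by beta_reduce; rw [tl_tl, mul_inv_cancel, tl_one]
      map_add' := fun v w => tl_add _ _ _ }) (by
    intro a b
    refine MulEquiv.ext fun v => ?_
    apply Multiplicative.toAdd.injective
    change tl (p (a * b)) (Multiplicative.toAdd v) = tl (p a) (tl (p b) (Multiplicative.toAdd v))
    rw [tl_tl, map_mul])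

theorem actV_apply {Γ Γ' : Type} [Group Γ] [Group Γ'] (p : Γ →* Γ') (x : Γ)
    (v : Multiplicative (Γ' →₀ ZMod 2)) :
    Multiplicative.toAdd (actV p x v) = tl (p x) (Multiplicative.toAdd v) := rfl

theorem mapDomain_tl {Γ Γ' : Type} [Group Γ] [Group Γ'] (p : Γ →* Γ') (x : Γ) (v : Γ →₀ ZMod 2) :
    Finsupp.mapDomain p (tl x v) = tl (p x) (Finsupp.mapDomain p v) := by
  unfold tl
  rw [← Finsupp.mapDomain_comp, ← Finsupp.mapDomain_comp]
  congr 1
  funext e
  simp

variable {α : Type} [Finite α] {G T : Type} [Group G] [TopologicalSpace G]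
    [IsTopologicalGroup G] [CompactSpace G] [TopologicalSpace T] [CompactSpace T] [T2Space T]
    [TotallyDisconnectedSpace T]

theorem lift_der (𝒢 : Pile G T) (h𝒢 : IsProjective 𝒢) (j : FreeGroup α →* G)
    (hjd : DenseRange j)
    (hj : ∀ (Q : Type) [Group Q] [Finite Q] (φ : FreeGroup α →* Q),
      ∃ ψ : G →* Q, (∀ f, ψ (j f) = φ f) ∧ IsOpen (ψ.ker : Set G)) (t : T)
    (Γ Γ' : Type) [Group Γ] [Group Γ'] [Finite Γ] [Finite Γ'] (π : G →* Γ)
    (hπ : IsOpen (π.ker : Set G)) (p : Γ →* Γ') (hp : Function.Surjective p)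
    (C0 : G → (Γ' →₀ ZMod 2)) (hC0 : ∀ x y, C0 (x * y) = C0 x + tl (p (π x)) (C0 y))
    (hC0π : ∀ x, π x = 1 → C0 x = 0) (hC0S : ∀ s ∈ 𝒢.stab t, C0 s = 0) :
    ∃ C : G → (Γ →₀ ZMod 2), (∀ x y, C (x * y) = C x + tl (π x) (C y)) ∧
      (∀ s ∈ 𝒢.stab t, C s = 0) ∧ ∀ x, Finsupp.mapDomain p (C x) = C0 x := by
  classical
  let P := Multiplicative (Γ →₀ ZMod 2) ⋊[actV (MonoidHom.id Γ)] Γ
  let Q := Multiplicative (Γ' →₀ ZMod 2) ⋊[actV p] Γ
  have hfin1 : Finite (Γ →₀ ZMod 2) := Finite.of_injective (fun f : Γ →₀ ZMod 2 => (f : Γ → ZMod 2))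
    DFunLike.coe_injective
  have hfin2 : Finite (Γ' →₀ ZMod 2) := Finite.of_injective
    (fun f : Γ' →₀ ZMod 2 => (f : Γ' → ZMod 2)) DFunLike.coe_injective
  have hfin1' : Finite (Multiplicative (Γ →₀ ZMod 2)) := hfin1
  have hfin2' : Finite (Multiplicative (Γ' →₀ ZMod 2)) := hfin2
  have hPf : Finite P := Finite.of_equiv _ (SemidirectProduct.equivProd).symm
  have hQf : Finite Q := Finite.of_equiv _ (SemidirectProduct.equivProd).symm
  let fn : Multiplicative (Γ →₀ ZMod 2) →* Multiplicative (Γ' →₀ ZMod 2) :=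
    AddMonoidHom.toMultiplicative (Finsupp.mapDomain.addMonoidHom p)
  have hfn : ∀ v, Multiplicative.toAdd (fn v) = Finsupp.mapDomain p (Multiplicative.toAdd v) :=
    fun v => rfl
  let q : P →* Q := SemidirectProduct.map fn (MonoidHom.id Γ) (by
    intro g
    refine MonoidHom.ext fun v => ?_
    apply Multiplicative.toAdd.injective
    change Finsupp.mapDomain p (tl g (Multiplicative.toAdd v)) =
      tl (p g) (Finsupp.mapDomain p (Multiplicative.toAdd v))
    exact mapDomain_tl p g _)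
  have hq : Function.Surjective q := by
    rintro ⟨v, x⟩
    obtain ⟨w, hw⟩ := Finsupp.mapDomain_surjective (M := ZMod 2) hp (Multiplicative.toAdd v)
    exact ⟨⟨Multiplicative.ofAdd w, x⟩, SemidirectProduct.ext (congrArg Multiplicative.ofAdd hw) rfl⟩
  let ρ : G →* Q := MonoidHom.mk' (fun x => ⟨Multiplicative.ofAdd (C0 x), π x⟩) (by
    intro x y
    refine SemidirectProduct.ext ?_ (map_mul π x y)
    apply Multiplicative.toAdd.injective
    exact hC0 x y)
  have hρo : IsOpen (ρ.ker : Set G) := by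
    refine Subgroup.isOpen_mono (H₁ := π.ker) ?_ hπ
    intro x hx
    rw [MonoidHom.mem_ker] at hx ⊢
    refine SemidirectProduct.ext ?_ hx
    exact congrArg Multiplicative.ofAdd (hC0π x hx)
  let σ : 𝒢.stab t →* P := (SemidirectProduct.inr).comp (π.comp (𝒢.stab t).subtype)
  have hθ : ∀ h : 𝒢.stab t, π h = 1 → σ h = 1 := by
    intro h hh
    change SemidirectProduct.inr (π (h : G)) = 1
    rw [hh, map_one]
  have hσ : ∀ h, q (σ h) = ρ h := by
    intro h
    refine SemidirectProduct.ext ?_ rfl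
    change fn 1 = Multiplicative.ofAdd (C0 (h : G))
    rw [hC0S _ h.2, map_one]
    rfl
  obtain ⟨τ, hτo, hτ1, hτ2⟩ := ext_stab 𝒢 h𝒢 j hjd hj t P Q Γ q hq ρ hρo π hπ σ hθ hσ
  have hr : ∀ x, (τ x).right = π x := fun x => congrArg SemidirectProduct.right (hτ1 x)
  refine ⟨fun x => Multiplicative.toAdd (τ x).left, ?_, ?_, ?_⟩
  · intro x y
    change Multiplicative.toAdd (τ (x * y)).left = _
    rw [map_mul, SemidirectProduct.mul_left, toAdd_mul, actV_apply, hr]
    rfl
  · intro s hs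
    change Multiplicative.toAdd (τ s).left = 0
    have h1 : τ s = σ ⟨s, hs⟩ := hτ2 ⟨s, hs⟩
    rw [h1]
    rfl
  · intro x
    exact congrArg (fun z : Q => Multiplicative.toAdd z.left) (hτ1 x)

end Run7.h900.Pile
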