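import Pool.Agent.Run7.h900.PileMain
import Pool.Agent.Q24.PF.Der3

set_option autoImplicit false

/-!
# Subgroups of free groups which are locally common kernels of derivations are free factors
-/

namespace Run7.h900.Pile

open Pool.Agent.Q24.PF Pool.Agent.Helper122.Cuts

/-- the intersections of finitely many kernels of derivations into the group algebra -/
inductive Cl {α : Type} : Subgroup (FreeGroup α) → Prop
  | top : Cl ⊤
  | inf (D : FreeGroup α → (FreeGroup α →₀ ZMod 2)) (hD : IsDer D) {A : Subgroup (FreeGroup α)}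
      (hA : Cl A) : Cl (dker D hD ⊓ A)

theorem Cl.factor {α : Type} {A : Subgroup (FreeGroup α)} (hA : Cl A) :
    ∀ K : Subgroup (FreeGroup α), K.FG →
      (A ⊓ K).FG ∧ ∃ T : Set (FreeGroup α), ∀ S, Bas S (A ⊓ K) → Bas (S ∪ T) K := by
  have hp : Fact (Nat.Prime 2) := ⟨Nat.prime_two⟩
  have hfree : ∀ K : Subgroup (FreeGroup α), K.FG → ∃ S, Bas S K := by
    intro K _
    exact exists_bas_of_free inferInstance
  induction hA with
  | top =>
    intro K hK
    rw [top_inf_eq]
    refine ⟨hK, ∅, fun S hS => ?_⟩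
    rwa [Set.union_empty]
  | inf D hD hA ih =>
    rename_i A
    intro K hK
    obtain ⟨h1, T1, hT1⟩ := ih K hK
    obtain ⟨h2, T2, hT2⟩ := ker_factor (tf_free α) (lip_free α 2) (freeAct_self (FreeGroup α)) hfree
      hD _ (A ⊓ K) h1 rfl
    rw [← inf_assoc] at h2 hT2
    refine ⟨h2, T2 ∪ T1, fun S hS => ?_⟩
    rw [← Set.union_assoc]
    exact hT1 _ (hT2 S hS)

/-- the number of homomorphisms to the group of order two -/
noncomputable def rkn {F : Type} [Group F] (K : Subgroup F) : ℕ :=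
  Nat.card (K →* Multiplicative (ZMod 2))

theorem rkn_lt {F : Type} [Group F] {S T : Set F} {A K : Subgroup F} (hS : Bas S A)
    (hST : Bas (S ∪ T) K) (hK : K.FG) (hne : A ≠ K) : rkn A < rkn K := by
  classical
  have hfin : Finite (K →* Multiplicative (ZMod 2)) := finite_hom ((Group.fg_iff_subgroup_fg K).2 hK)
  have hle : A ≤ K := by
    rw [← hS.2, ← hST.2]
    exact Subgroup.closure_mono Set.subset_union_left
  obtain ⟨e, he⟩ := hST.retr
  have hSA : ∀ s ∈ S, s ∈ A := fun s hs => by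
    rw [← hS.2]
    exact Subgroup.subset_closure hs
  have hSTK : ∀ s ∈ S ∪ T, s ∈ K := fun s hs => by
    rw [← hST.2]
    exact Subgroup.subset_closure hs
  let r : (K →* Multiplicative (ZMod 2)) → (A →* Multiplicative (ZMod 2)) :=
    fun φ => φ.comp (Subgroup.inclusion hle)
  have hs : Function.Surjective r := by
    intro ψ
    let f : ↥(S ∪ T) → Multiplicative (ZMod 2) := fun s =>
      if h : (s : F) ∈ S then ψ ⟨s, hSA _ h⟩ else 1
    refine ⟨(FreeGroup.lift f).comp e.toMonoidHom, ?_⟩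
    apply MonoidHom.ext
    rintro ⟨a, ha⟩
    have ha' : a ∈ Subgroup.closure S := by rwa [hS.2]
    change FreeGroup.lift f (e ⟨a, hle ha⟩) = ψ ⟨a, ha⟩
    induction ha' using Subgroup.closure_induction with
    | mem s hs =>
      rw [he ⟨s, Or.inl hs⟩ (hle ha), FreeGroup.lift_apply_of]
      simp only [f]
      rw [dif_pos hs]
    | one =>
      have h1 : (⟨1, hle ha⟩ : K) = 1 := rfl
      have h2 : (⟨1, ha⟩ : A) = 1 := rfl
      rw [h1, h2, map_one, map_one, map_one]
    | mul a b ha1 hb1 iha ihb =>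
      have ha2 : a ∈ A := by rwa [hS.2] at ha1
      have hb2 : b ∈ A := by rwa [hS.2] at hb1
      have h1 : (⟨a * b, hle ha⟩ : K) = ⟨a, hle ha2⟩ * ⟨b, hle hb2⟩ := rfl
      have h2 : (⟨a * b, ha⟩ : A) = ⟨a, ha2⟩ * ⟨b, hb2⟩ := rfl
      rw [h1, h2, map_mul, map_mul, map_mul, iha ha2, ihb hb2]
    | inv a ha1 iha =>
      have ha2 : a ∈ A := by rwa [hS.2] at ha1
      have h1 : (⟨a⁻¹, hle ha⟩ : K) = ⟨a, hle ha2⟩⁻¹ := rfl
      have h2 : (⟨a⁻¹, ha⟩ : A) = ⟨a, ha2⟩⁻¹ := rfl
      rw [h1, h2, map_inv, map_inv, map_inv, iha ha2]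
  have hni : ¬ Function.Injective r := by
    intro hinj
    apply hne
    apply le_antisymm hle
    rw [← hST.2, Subgroup.closure_le]
    intro t ht
    by_contra htA
    have htS : t ∉ S := fun h => htA (hSA t h)
    let f : ↥(S ∪ T) → Multiplicative (ZMod 2) := fun s =>
      if (s : F) ∈ S then 1 else Multiplicative.ofAdd 1
    have h1 : r ((FreeGroup.lift f).comp e.toMonoidHom) = r 1 := by
      apply MonoidHom.ext
      rintro ⟨a, ha⟩
      have ha' : a ∈ Subgroup.closure S := by rwa [hS.2]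
      change FreeGroup.lift f (e ⟨a, hle ha⟩) = 1
      induction ha' using Subgroup.closure_induction with
      | mem s hs =>
        rw [he ⟨s, Or.inl hs⟩ (hle ha), FreeGroup.lift_apply_of]
        simp only [f]
        rw [if_pos hs]
      | one =>
        have h1 : (⟨1, hle ha⟩ : K) = 1 := rfl
        rw [h1, map_one, map_one]
      | mul a b ha1 hb1 iha ihb =>
        have ha2 : a ∈ A := by rwa [hS.2] at ha1
        have hb2 : b ∈ A := by rwa [hS.2] at hb1
        have h1 : (⟨a * b, hle ha⟩ : K) = ⟨a, hle ha2⟩ * ⟨b, hle hb2⟩ := rfl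
        rw [h1, map_mul, map_mul, iha ha2, ihb hb2, one_mul]
      | inv a ha1 iha =>
        have ha2 : a ∈ A := by rwa [hS.2] at ha1
        have h1 : (⟨a⁻¹, hle ha⟩ : K) = ⟨a, hle ha2⟩⁻¹ := rfl
        rw [h1, map_inv, map_inv, iha ha2, inv_one]
    have h2 := DFunLike.congr_fun (hinj h1) ⟨t, hSTK t ht⟩
    change FreeGroup.lift f (e ⟨t, hSTK t ht⟩) = 1 at h2
    rw [he ⟨t, ht⟩ (hSTK t ht), FreeGroup.lift_apply_of] at h2
    simp only [f] at h2
    rw [if_neg htS] at h2
    exact absurd h2 (by decide)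
  have hfA : Finite (A →* Multiplicative (ZMod 2)) := Finite.of_surjective r hs
  unfold rkn
  by_contra hlt
  apply hni
  exact (Function.Surjective.bijective_of_nat_card_le hs (not_lt.1 hlt)).1

theorem rkn_le {F : Type} [Group F] {S T : Set F} {A K : Subgroup F} (hS : Bas S A)
    (hST : Bas (S ∪ T) K) (hK : K.FG) : rkn A ≤ rkn K := by
  by_cases h : A = K
  · rw [h]
  · exact (rkn_lt hS hST hK h).le

/-- a subgroup of a finitely generated free group which can be separated from the other elements by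
common zeros of derivations, locally -/
theorem cl_of_sep {α : Type} [Finite α] (H : Subgroup (FreeGroup α))
    (hsep : ∀ {κ : Type} [Finite κ] (g : κ → FreeGroup α), (∀ l, g l ∈ H) → ∀ x, x ∉ H →
      ∃ D : FreeGroup α → (FreeGroup α →₀ ZMod 2), IsDer D ∧ (∀ l, D (g l) = 0) ∧ D x ≠ 0) :
    Cl H := by
  classical
  have hfree : ∀ K : Subgroup (FreeGroup α), ∃ S, Bas S K := by
    intro K
    exact exists_bas_of_free inferInstance
  have hKfg : (⊤ : Subgroup (FreeGroup α)).FG :=
    (Group.fg_iff_subgroup_fg _).1 (Group.fg_of_surjective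
      (f := (Subgroup.topEquiv : (⊤ : Subgroup (FreeGroup α)) ≃* FreeGroup α).symm.toMonoidHom)
      (Subgroup.topEquiv : (⊤ : Subgroup (FreeGroup α)) ≃* FreeGroup α).symm.surjective)
  have hClfg : ∀ A : Subgroup (FreeGroup α), Cl A → A.FG := by
    intro A hA
    have := (hA.factor ⊤ hKfg).1
    rwa [inf_top_eq] at this
  -- local factors
  have hloc : ∀ {κ : Type} [Finite κ] (g : κ → FreeGroup α), (∀ l, g l ∈ H) →
      ∃ A : Subgroup (FreeGroup α), Cl A ∧ (∀ l, g l ∈ A) ∧ A ≤ H := by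
    intro κ _ g hg
    let P : ℕ → Prop := fun n => ∃ A : Subgroup (FreeGroup α), Cl A ∧ (∀ l, g l ∈ A) ∧ rkn A = n
    have hP : ∃ n, P n := ⟨_, ⊤, Cl.top, fun l => Subgroup.mem_top _, rfl⟩
    obtain ⟨A, hA, hgA, hn⟩ := Nat.find_spec hP
    refine ⟨A, hA, hgA, ?_⟩
    intro x hxA
    by_contra hx
    obtain ⟨D, hD, hDg, hDx⟩ := hsep g hg x hx
    have hA' := Cl.inf D hD hA
    have hne : dker D hD ⊓ A ≠ A := by
      intro h
      rw [← h] at hxA
      exact hDx hxA.1
    have hlt : rkn (dker D hD ⊓ A) < rkn A := by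
      obtain ⟨-, T, hT⟩ := hA'.factor A (hClfg A hA)
      rw [inf_assoc, inf_idem] at hT
      obtain ⟨S, hS⟩ := hfree (dker D hD ⊓ A)
      exact rkn_lt hS (hT S hS) (hClfg A hA) hne
    have := Nat.find_min' hP ⟨dker D hD ⊓ A, hA', fun l => ⟨hDg l, hgA l⟩, rfl⟩
    omega
  -- a maximal local factor
  have hmax : ∃ A : Subgroup (FreeGroup α), Cl A ∧ A ≤ H ∧
      ∀ A' : Subgroup (FreeGroup α), Cl A' → A' ≤ H → rkn A' ≤ rkn A := by
    have hbd : ∀ A : Subgroup (FreeGroup α), Cl A → rkn A ≤ rkn (⊤ : Subgroup (FreeGroup α)) := by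
      intro A hA
      obtain ⟨-, T, hT⟩ := hA.factor ⊤ hKfg
      rw [inf_top_eq] at hT
      obtain ⟨S, hS⟩ := hfree A
      exact rkn_le hS (hT S hS) hKfg
    let s : Set ℕ := {n | ∃ A : Subgroup (FreeGroup α), Cl A ∧ A ≤ H ∧ rkn A = n}
    have hsne : s.Nonempty := by
      obtain ⟨A, hA, -, hAH⟩ := hloc (fun _ : Unit => (1 : FreeGroup α)) (fun _ => H.one_mem)
      exact ⟨_, A, hA, hAH, rfl⟩
    have hsb : BddAbove s := by
      refine ⟨rkn (⊤ : Subgroup (FreeGroup α)), ?_⟩
      rintro n ⟨A, hA, -, rfl⟩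
      exact hbd A hA
    obtain ⟨A, hA, hAH, hAn⟩ := Nat.sSup_mem hsne hsb
    refine ⟨A, hA, hAH, ?_⟩
    intro A' hA' hA'H
    rw [hAn]
    exact le_csSup hsb ⟨A', hA', hA'H, rfl⟩
  obtain ⟨A, hA, hAH, hAmax⟩ := hmax
  have hAeq : A = H := by
    apply le_antisymm hAH
    intro h hh
    obtain ⟨B, hB⟩ := hClfg A hA
    let g : Option B → FreeGroup α := fun o => o.elim h (fun b => b)
    obtain ⟨A', hA', hgA', hA'H⟩ := hloc g (by
      rintro (_ | b)
      · exact hh
      · apply hAH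
        rw [← hB]
        exact Subgroup.subset_closure b.2)
    have hle : A ≤ A' := by
      rw [← hB, Subgroup.closure_le]
      intro b hb
      exact hgA' (some ⟨b, hb⟩)
    by_cases hne : A = A'
    · rw [hne]
      exact hgA' none
    · exfalso
      obtain ⟨-, T, hT⟩ := hA.factor A' (hClfg A' hA')
      rw [inf_eq_left.2 hle] at hT
      obtain ⟨S, hS⟩ := hfree A
      have h1 := rkn_lt hS (hT S hS) (hClfg A' hA') hne
      have h2 := hAmax A' hA' hA'H
      omega
  rw [← hAeq]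
  exact hA

end Run7.h900.Pile
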