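import Pool.Agent.Run7.h900.PileDer

set_option autoImplicit false

/-!
# Elements in proper point stabilizers: existence of a derivation into the group algebra
-/

namespace Run7.h900.Pile

open Pool.Agent.Q24.PF Pool.Agent.Helper122.Cuts

section uniq

variable {α Γ : Type} [Group Γ]

/-- a derivation of a free group over a homomorphism which vanishes on the basis vanishes -/
theorem der_zero (π : FreeGroup α →* Γ) (D : FreeGroup α → (Γ →₀ ZMod 2))
    (hD : ∀ x y, D (x * y) = D x + tl (π x) (D y)) (h : ∀ i, D (FreeGroup.of i) = 0)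
    (x : FreeGroup α) : D x = 0 := by
  have h0 : ∀ a : Γ, tl a (0 : Γ →₀ ZMod 2) = 0 := fun a => Finsupp.mapDomain_zero
  have h1 : D 1 = 0 := by
    have := hD 1 1
    rw [mul_one, map_one, tl_one] at this
    simpa using this
  induction x using FreeGroup.induction_on with
  | C1 => exact h1
  | of i => exact h i
  | inv_of i ih =>
    have h2 := hD (FreeGroup.of i)⁻¹ (FreeGroup.of i)
    rw [inv_mul_cancel, h1, ih, h0, add_zero] at h2
    exact h2.symm
  | mul a b ha hb => rw [hD, ha, hb, h0, add_zero]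

theorem der_ext (π : FreeGroup α →* Γ) (D D' : FreeGroup α → (Γ →₀ ZMod 2))
    (hD : ∀ x y, D (x * y) = D x + tl (π x) (D y)) (hD' : ∀ x y, D' (x * y) = D' x + tl (π x) (D' y))
    (h : ∀ i, D (FreeGroup.of i) = D' (FreeGroup.of i)) (x : FreeGroup α) : D x = D' x := by
  have h1 := der_zero π (fun x => D x - D' x) (by
    intro x y
    beta_reduce
    rw [hD, hD', tl_sub']
    abel) (by
    intro i
    beta_reduce
    rw [h, sub_self]) x
  exact sub_eq_zero.1 h1

theorem isDer_ext {D D' : FreeGroup α → (FreeGroup α →₀ ZMod 2)} (hD : IsDer D) (hD' : IsDer D')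
    (h : ∀ i, D (FreeGroup.of i) = D' (FreeGroup.of i)) (x : FreeGroup α) : D x = D' x :=
  der_ext (MonoidHom.id (FreeGroup α)) D D' (fun x y => hD x y) (fun x y => hD' x y) h x

/-- the derivation with given values on the basis -/
noncomputable def dd (c : α → (FreeGroup α →₀ ZMod 2)) : FreeGroup α → (FreeGroup α →₀ ZMod 2) :=
  (exists_der c).choose

theorem dd_der (c : α → (FreeGroup α →₀ ZMod 2)) : IsDer (dd c) := (exists_der c).choose_spec.1

theorem dd_of (c : α → (FreeGroup α →₀ ZMod 2)) (i : α) : dd c (FreeGroup.of i) = c i :=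
  (exists_der c).choose_spec.2 i

/-- the value at `g` as a linear map -/
noncomputable def ev (g : FreeGroup α) :
    (α → (FreeGroup α →₀ ZMod 2)) →ₗ[ZMod 2] (FreeGroup α →₀ ZMod 2) where
  toFun c := dd c g
  map_add' c c' := by
    refine isDer_ext (dd_der (c + c')) (IsDer.add (dd_der c) (dd_der c')) (fun i => ?_) g
    rw [dd_of, dd_of, dd_of]
    rfl
  map_smul' a c := by
    refine isDer_ext (dd_der (a • c)) (IsDer.smul (dd_der c) a) (fun i => ?_) g
    beta_reduce
    rw [dd_of, dd_of]
    rfl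

theorem ev_apply (g : FreeGroup α) (c : α → (FreeGroup α →₀ ZMod 2)) : ev g c = dd c g := rfl

theorem ev_RT (g y : FreeGroup α) (c : α → (FreeGroup α →₀ ZMod 2)) :
    ev g (RT α y c) = rt y (ev g c) := by
  refine isDer_ext (dd_der (RT α y c)) (IsDer.rt (dd_der c) y) (fun i => ?_) g
  beta_reduce
  rw [dd_of, dd_of]
  rfl

/-- the values at the elements of a family as a linear map -/
noncomputable def evF {κ : Type} (g : κ → FreeGroup α) :
    (α → (FreeGroup α →₀ ZMod 2)) →ₗ[ZMod 2] (κ → (FreeGroup α →₀ ZMod 2)) :=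
  LinearMap.pi (fun l => ev (g l))

theorem evF_apply {κ : Type} (g : κ → FreeGroup α) (c : α → (FreeGroup α →₀ ZMod 2)) (l : κ) :
    evF g c l = dd c (g l) := rfl

theorem evF_RT {κ : Type} (g : κ → FreeGroup α) (y : FreeGroup α)
    (c : α → (FreeGroup α →₀ ZMod 2)) : evF g (RT α y c) = RT κ y (evF g c) := by
  funext l
  exact ev_RT (g l) y c

theorem RT_RT {κ : Type} (g h : FreeGroup α) (u : κ → (FreeGroup α →₀ ZMod 2)) :
    RT κ h (RT κ g u) = RT κ (g * h) u := by
  funext l
  exact rt_rt g h (u l)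

theorem RT_one {κ : Type} (u : κ → (FreeGroup α →₀ ZMod 2)) : RT κ 1 u = u := by
  funext l
  exact rt_one (u l)

theorem mapDomain_rt {Γ : Type} [Group Γ] (π : FreeGroup α →* Γ) (y : FreeGroup α)
    (z : FreeGroup α →₀ ZMod 2) :
    Finsupp.mapDomain π (rt y z) = Finsupp.mapDomain (fun e : Γ => e * π y) (Finsupp.mapDomain π z) := by
  have h : rt y z = Finsupp.mapDomain (fun e => e * y) z := by
    have : (rt (p := 2) y).toLinearMap = Finsupp.lmapDomain (ZMod 2) (ZMod 2) (fun e => e * y) := by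
      apply Finsupp.lhom_ext
      intro e a
      simp only [LinearEquiv.coe_coe]
      rw [rt_single, Finsupp.lmapDomain_apply, Finsupp.mapDomain_single]
    exact LinearMap.congr_fun this z
  rw [h, ← Finsupp.mapDomain_comp, ← Finsupp.mapDomain_comp]
  congr 1
  funext e
  simp

end uniq

theorem bound {α ι : Type} [Finite ι] (z : ι → (FreeGroup α →₀ ZMod 2)) :
    ∃ n : ℕ, ∀ i, ∀ y ∈ (z i).support, (by classical exact y.toWord.length) ≤ n := by
  classical
  cases nonempty_fintype ι
  refine ⟨Finset.univ.sup (fun i => (z i).support.sup (fun y => y.toWord.length)), ?_⟩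
  intro i y hy
  have h1 := Finset.le_sup (f := fun y : FreeGroup α => y.toWord.length) hy
  have h2 := Finset.le_sup (f := fun i => (z i).support.sup (fun y => y.toWord.length))
    (Finset.mem_univ i)
  exact h1.trans h2

/-- the quotients of a profinite group are quotients of a dense subgroup -/
theorem surj_of_dense {F G P : Type} [Group F] [Group G] [TopologicalSpace G] [IsTopologicalGroup G]
    [Group P] (j : F →* G) (hjd : DenseRange j) (φ : G →* P) (hφ : IsOpen (φ.ker : Set G)) (x : G) :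
    ∃ f, φ (j f) = φ x := by
  let tP : TopologicalSpace P := ⊥
  have dP : DiscreteTopology P := ⟨rfl⟩
  obtain ⟨f, hf⟩ := hjd.exists_mem_open ((isOpen_discrete {φ x}).preimage (cont_of_open φ hφ))
    ⟨x, rfl⟩
  exact ⟨f, hf⟩

section main

variable {α : Type} [Finite α] {G T : Type} [Group G] [TopologicalSpace G]
    [IsTopologicalGroup G] [CompactSpace G] [TotallyDisconnectedSpace G]
    [TopologicalSpace T] [CompactSpace T] [T2Space T] [TotallyDisconnectedSpace T]

theorem exists_ker (𝒢 : Pile G T) (h𝒢 : IsProjective 𝒢) (j : FreeGroup α →* G)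
    (hjd : DenseRange j)
    (hj : ∀ (Q : Type) [Group Q] [Finite Q] (φ : FreeGroup α →* Q),
      ∃ ψ : G →* Q, (∀ f, ψ (j f) = φ f) ∧ IsOpen (ψ.ker : Set G)) (t : T)
    {κ : Type} [Finite κ] (g : κ → FreeGroup α) (hg : ∀ l, j (g l) ∈ 𝒢.stab t)
    (x : FreeGroup α) (hx : j x ∉ 𝒢.stab t) :
    ∃ D : FreeGroup α → (FreeGroup α →₀ ZMod 2), IsDer D ∧ (∀ l, D (g l) = 0) ∧ D x ≠ 0 := by
  classical
  cases nonempty_fintype κ
  by_contra hcon
  have hinj : ∀ c, evF g c = 0 → dd c x = 0 := by
    intro c hc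
    by_contra hne
    apply hcon
    refine ⟨dd c, dd_der c, fun l => ?_, hne⟩
    rw [← evF_apply, hc, Pi.zero_apply]
  -- a finite quotient in which the image of the element is not in the image of the stabilizer
  have hSc : IsClosed (𝒢.stab t : Set G) := by
    have hct : Continuous (fun g => 𝒢.act t g) := 𝒢.cont.comp (continuous_const.prodMk continuous_id)
    exact isClosed_singleton.preimage hct
  obtain ⟨N, hN⟩ := ProfiniteGrp.exist_openNormalSubgroup_sub_open_nhds_of_one
    (U := (fun u => j x * u) ⁻¹' (𝒢.stab t : Set G)ᶜ)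
    (hSc.isOpen_compl.preimage (continuous_const_mul (j x))) (by
      rw [Set.mem_preimage, mul_one]
      exact hx)
  let N' : Subgroup G := N.toSubgroup
  have hN'o : IsOpen (N' : Set G) := N.isOpen'
  have hN'n : N'.Normal := N.isNormal'
  have hfin : Finite (G ⧸ N') := Subgroup.quotient_finite_of_isOpen N' hN'o
  let Γ0 := G ⧸ N'
  let π0 : G →* Γ0 := QuotientGroup.mk' N'
  have hπ0o : IsOpen (π0.ker : Set G) := by
    rw [QuotientGroup.ker_mk']
    exact hN'o
  have hxS : π0 (j x) ∉ (𝒢.stab t).map π0 := by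
    rintro ⟨s, hs, hsx⟩
    have h1 : (j x)⁻¹ * s ∈ N' := by
      rw [← QuotientGroup.eq]
      exact hsx.symm
    have h2 := hN h1
    apply h2
    change j x * ((j x)⁻¹ * s) ∈ 𝒢.stab t
    rw [mul_inv_cancel_left]
    exact hs
  let v0 : Γ0 →₀ ZMod 2 := Finsupp.equivFunOnFinite.symm
    (fun γ => if γ ∈ (𝒢.stab t).map π0 then 1 else 0)
  have hv0 : ∀ γ, v0 γ = if γ ∈ (𝒢.stab t).map π0 then 1 else 0 := fun γ => rfl
  let C0 : G → (Γ0 →₀ ZMod 2) := fun y => tl (π0 y) v0 - v0
  have hC0 : ∀ y z, C0 (y * z) = C0 y + tl (π0 y) (C0 z) := by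
    intro y z
    change tl (π0 (y * z)) v0 - v0 = (tl (π0 y) v0 - v0) + tl (π0 y) (tl (π0 z) v0 - v0)
    rw [tl_sub', tl_tl, map_mul]
    abel
  have hC0S : ∀ s ∈ 𝒢.stab t, C0 s = 0 := by
    intro s hs
    change tl (π0 s) v0 - v0 = 0
    rw [sub_eq_zero]
    ext e
    rw [tl_apply, hv0, hv0]
    have h1 : π0 s ∈ (𝒢.stab t).map π0 := ⟨s, hs, rfl⟩
    have h2 : (π0 s)⁻¹ • e ∈ (𝒢.stab t).map π0 ↔ e ∈ (𝒢.stab t).map π0 := by
      rw [smul_eq_mul]
      exact Subgroup.mul_mem_cancel_left _ (Subgroup.inv_mem _ h1)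
    simp only [h2]
  have hC0x : C0 (j x) ≠ 0 := by
    intro h
    have h1 : tl (π0 (j x)) v0 = v0 := sub_eq_zero.1 h
    have h2 := DFunLike.congr_fun h1 (π0 (j x))
    rw [tl_apply, hv0, hv0, if_neg hxS, smul_eq_mul, inv_mul_cancel,
      if_pos (Subgroup.one_mem _)] at h2
    exact one_ne_zero h2
  -- the homomorphism of the free group
  let π : FreeGroup α →* Γ0 := π0.comp j
  have hπs : Function.Surjective π := by
    intro γ
    obtain ⟨y, rfl⟩ := QuotientGroup.mk'_surjective N' γ
    exact surj_of_dense j hjd π0 hπ0o y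
  obtain ⟨rep, hrep⟩ := hπs.hasRightInverse
  have hΓf : Finite (Γ0 →₀ ZMod 2) := Finite.of_injective
    (fun f : Γ0 →₀ ZMod 2 => (f : Γ0 → ZMod 2)) DFunLike.coe_injective
  let I : Submodule (ZMod 2) (α → (FreeGroup α →₀ ZMod 2)) :=
    { carrier := {c | ∀ i, Finsupp.mapDomain π (c i) = 0}
      add_mem' := by
        intro c c' h h' i
        rw [Pi.add_apply, Finsupp.mapDomain_add, h i, h' i, add_zero]
      zero_mem' := fun i => Finsupp.mapDomain_zero
      smul_mem' := by
        intro a c h i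
        rw [Pi.smul_apply, Finsupp.mapDomain_smul, h i, smul_zero] }
  have hI : ∀ c, c ∈ I ↔ ∀ i, Finsupp.mapDomain π (c i) = 0 := fun c => Iff.rfl
  have hIRT : ∀ y, ∀ c ∈ I, RT α y c ∈ I := by
    intro y c hc i
    rw [RT_apply, mapDomain_rt, (hI c).1 hc i, Finsupp.mapDomain_zero]
  have hIdd : ∀ c ∈ I, ∀ y, Finsupp.mapDomain π (dd c y) = 0 := by
    intro c hc
    apply der_zero π
    · intro y z
      rw [dd_der c y z, Finsupp.mapDomain_add, mapDomain_tl]
    · intro i
      rw [dd_of]
      exact hc i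
  let P0 : Submodule (ZMod 2) (κ → (FreeGroup α →₀ ZMod 2)) := I.map (evF g)
  have hP0le : ∀ y, ∀ z ∈ P0, RT κ y z ∈ P0 := by
    rintro y _ ⟨c, hc, rfl⟩
    exact ⟨RT α y c, hIRT y c hc, evF_RT g y c⟩
  have hP0 : ∀ y, P0.map (RT κ y).toLinearMap = P0 := by
    intro y
    apply le_antisymm
    · rintro _ ⟨z, hz, rfl⟩
      exact hP0le y z hz
    · intro z hz
      refine ⟨RT κ y⁻¹ z, hP0le _ z hz, ?_⟩
      change RT κ y (RT κ y⁻¹ z) = z
      rw [RT_RT, inv_mul_cancel, RT_one]
  let Q := (κ → (FreeGroup α →₀ ZMod 2)) ⧸ P0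
  let X : α → (Q ≃ₗ[ZMod 2] Q) := fun i =>
    Submodule.Quotient.equiv P0 P0 (RT κ (FreeGroup.of i)) (hP0 (FreeGroup.of i))
  have hX : ∀ i u, X i (Submodule.Quotient.mk u) = Submodule.Quotient.mk (RT κ (FreeGroup.of i) u) :=
    fun i u => rfl
  have hact : ∀ (y : FreeGroup α) (u : κ → (FreeGroup α →₀ ZMod 2)),
      (ract X y).unop (Submodule.Quotient.mk u : Q) = Submodule.Quotient.mk (RT κ y u) := by
    intro y
    induction y using FreeGroup.induction_on with
    | C1 =>
      intro u
      rw [map_one, RT_one]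
      rfl
    | of i =>
      intro u
      unfold ract
      rw [FreeGroup.lift_apply_of]
      exact hX i u
    | inv_of i _ =>
      intro u
      unfold ract
      rw [map_inv, FreeGroup.lift_apply_of]
      change (X i).symm _ = _
      rw [LinearEquiv.symm_apply_eq, hX, RT_RT, inv_mul_cancel, RT_one]
    | mul a b ha hb =>
      intro u
      rw [ract_mul, ha, hb, RT_RT]
  -- the bound
  have hfg : (π.ker).FG := by
    have : Group.FG (FreeGroup α) := inferInstance
    have h1 : (π.ker).FiniteIndex := Subgroup.finiteIndex_ker π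
    rw [← Group.fg_iff_subgroup_fg]
    infer_instance
  obtain ⟨S0, hS0⟩ := hfg
  obtain ⟨n1, hn1⟩ := bound (fun u : (α → (Γ0 →₀ ZMod 2)) × κ =>
    evF g (fun i => Finsupp.mapDomain rep (u.1 i)) u.2)
  obtain ⟨n2, hn2⟩ := bound (fun u : (S0 × α) × κ =>
    evF g (Pi.single u.1.2 (Finsupp.single (u.1.1 : FreeGroup α) 1 - Finsupp.single 1 1)) u.2)
  let n := max n1 n2
  let q : κ → Q := fun l => Submodule.Quotient.mk (Pi.single l (Finsupp.single 1 1))
  obtain ⟨W, hW, Y, hqW, hY⟩ := complete X q n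
  let qb : κ → W := fun l => ⟨q l, hqW l⟩
  have hYg : ∀ (l : κ) (y : FreeGroup α), y.toWord.length ≤ n →
      (((ract Y y).unop (qb l) : W) : Q) = (ract X y).unop (q l) := by
    intro l y hy
    have h1 := hY l y.toWord hy
    have e : y = FreeGroup.mk y.toWord := FreeGroup.mk_toWord.symm
    have h2 : (ract Y y).unop (qb l) = wd Y y.toWord (qb l) := by
      conv_lhs => rw [e]
      exact ract_mk Y _ _
    have h3 : (ract X y).unop (q l) = wd X y.toWord (q l) := by
      conv_lhs => rw [e]
      exact ract_mk X _ _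
    rw [h2, h3]
    exact h1
  let LC1 : κ → (FreeGroup α →₀ ZMod 2) →ₗ[ZMod 2] W := fun l =>
    Finsupp.linearCombination (ZMod 2) (fun y => (ract Y y).unop (qb l))
  have hLC1 : ∀ (l : κ) (z : FreeGroup α →₀ ZMod 2), (∀ y ∈ z.support, y.toWord.length ≤ n) →
      ((LC1 l z : W) : Q) = Submodule.Quotient.mk (Pi.single l z) := by
    intro l z hz
    have h2 : (Submodule.Quotient.mk (Pi.single l z) : Q) =
        Finsupp.linearCombination (ZMod 2)
          (fun y => P0.mkQ (Pi.single l (Finsupp.single y 1))) z := by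
      have : P0.mkQ ∘ₗ (LinearMap.single (ZMod 2) (fun _ : κ => (FreeGroup α →₀ ZMod 2)) l) =
          Finsupp.linearCombination (ZMod 2) (fun y => P0.mkQ (Pi.single l (Finsupp.single y 1))) := by
        apply Finsupp.lhom_ext
        intro y a
        rw [Finsupp.linearCombination_single, ← map_smul, LinearMap.comp_apply]
        congr 1
        rw [← Pi.single_smul, Finsupp.smul_single, smul_eq_mul, mul_one]
        rfl
      exact LinearMap.congr_fun this z
    rw [h2]
    simp only [LC1]
    rw [Finsupp.linearCombination_apply, Finsupp.linearCombination_apply, Finsupp.sum,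
      Finsupp.sum, Submodule.coe_sum]
    refine Finset.sum_congr rfl fun y hy => ?_
    rw [Submodule.coe_smul, hYg l y (hz y hy)]
    congr 1
    change (ract X y).unop (Submodule.Quotient.mk (Pi.single l (Finsupp.single 1 1))) = _
    rw [hact]
    have h5 : RT κ y (Pi.single l (Finsupp.single 1 1)) =
        (Pi.single l (Finsupp.single y 1) : κ → (FreeGroup α →₀ ZMod 2)) := by
      funext m
      rw [RT_apply]
      by_cases h : m = l
      · subst h
        rw [Pi.single_eq_same, Pi.single_eq_same, rt_single, one_mul]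
      · rw [Pi.single_eq_of_ne h, Pi.single_eq_of_ne h, map_zero]
    rw [h5]
    rfl
  let LC : (κ → (FreeGroup α →₀ ZMod 2)) →ₗ[ZMod 2] W :=
    ∑ l, (LC1 l) ∘ₗ (LinearMap.proj l)
  have hLCa : ∀ z, LC z = ∑ l, LC1 l (z l) := by
    intro z
    simp only [LC]
    rw [LinearMap.sum_apply]
    rfl
  have hLC : ∀ z : κ → (FreeGroup α →₀ ZMod 2), (∀ l, ∀ y ∈ (z l).support, y.toWord.length ≤ n) →
      ((LC z : W) : Q) = Submodule.Quotient.mk z := by
    intro z hz
    rw [hLCa, Submodule.coe_sum]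
    have h1 : (Submodule.Quotient.mk z : Q) = P0.mkQ z := rfl
    rw [h1, ← Finset.univ_sum_single z, map_sum]
    refine Finset.sum_congr rfl fun l _ => ?_
    rw [hLC1 l _ (by
      have := hz l
      rwa [Finset.univ_sum_single z])]
    rw [Finset.univ_sum_single z]
    rfl
  have hLCrt : ∀ (y : FreeGroup α) (z : κ → (FreeGroup α →₀ ZMod 2)),
      LC (RT κ y z) = (ract Y y).unop (LC z) := by
    intro y z
    rw [hLCa, hLCa, map_sum]
    refine Finset.sum_congr rfl fun l _ => ?_
    rw [RT_apply]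
    have : LC1 l ∘ₗ (rt y).toLinearMap = (ract Y y).unop.toLinearMap ∘ₗ LC1 l := by
      apply Finsupp.lhom_ext
      intro e a
      simp only [LinearMap.comp_apply, LinearEquiv.coe_coe, LC1]
      rw [rt_single, Finsupp.linearCombination_single, Finsupp.linearCombination_single, map_smul,
        ract_mul]
    exact LinearMap.congr_fun this (z l)
  -- the kernel
  have hps : ∀ (i : α) (y : FreeGroup α) (z : FreeGroup α →₀ ZMod 2),
      (Pi.single i (rt y z) : α → (FreeGroup α →₀ ZMod 2)) = RT α y (Pi.single i z) := by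
    intro i y z
    funext l
    rw [RT_apply]
    by_cases h : l = i
    · subst h
      rw [Pi.single_eq_same, Pi.single_eq_same]
    · rw [Pi.single_eq_of_ne h, Pi.single_eq_of_ne h, map_zero]
  let Λ : α → (FreeGroup α →₀ ZMod 2) →ₗ[ZMod 2] W := fun i =>
    LC ∘ₗ (evF g) ∘ₗ (LinearMap.single (ZMod 2) (fun _ : α => (FreeGroup α →₀ ZMod 2)) i)
  have hΛ : ∀ i z, Λ i z = LC (evF g (Pi.single i z)) := fun i z => rfl
  have hΛrt : ∀ i y z, Λ i (rt y z) = (ract Y y).unop (Λ i z) := by
    intro i y z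
    rw [hΛ, hΛ, hps, evF_RT, hLCrt]
  have hc1 : ∀ u ∈ π.ker, ∀ i, Λ i (Finsupp.single u 1 - Finsupp.single 1 1) = 0 := by
    intro u hu
    rw [← hS0] at hu
    induction hu using Subgroup.closure_induction with
    | mem u hu =>
      intro i
      have hu' : u ∈ π.ker := by
        rw [← hS0]
        exact Subgroup.subset_closure hu
      apply Subtype.ext
      rw [hΛ, hLC (evF g (Pi.single i (Finsupp.single u 1 - Finsupp.single 1 1)))
        (fun l y hy => (hn2 ((⟨u, hu⟩, i), l) y hy).trans (le_max_right _ _))]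
      rw [ZeroMemClass.coe_zero, Submodule.Quotient.mk_eq_zero]
      refine ⟨_, ?_, rfl⟩
      rw [SetLike.mem_coe, hI]
      intro l
      by_cases h : l = i
      · subst h
        rw [Pi.single_eq_same, sub_eq_add_neg, Finsupp.mapDomain_add, ← Finsupp.single_neg,
          Finsupp.mapDomain_single, Finsupp.mapDomain_single, hu', map_one, ← Finsupp.single_add,
          add_neg_cancel, Finsupp.single_zero]
      · rw [Pi.single_eq_of_ne h, Finsupp.mapDomain_zero]
    | one =>
      intro i
      rw [sub_self, map_zero]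
    | mul a b _ _ iha ihb =>
      intro i
      have e : (Finsupp.single (a * b) 1 - Finsupp.single 1 1 : FreeGroup α →₀ ZMod 2) =
          rt b (Finsupp.single a 1 - Finsupp.single 1 1) +
            (Finsupp.single b 1 - Finsupp.single 1 1) := by
        rw [map_sub, rt_single, rt_single, one_mul]
        abel
      rw [e, map_add, hΛrt, iha, ihb, map_zero, add_zero]
    | inv a _ iha =>
      intro i
      have e : (Finsupp.single a⁻¹ 1 - Finsupp.single 1 1 : FreeGroup α →₀ ZMod 2) =
          -rt a⁻¹ (Finsupp.single a 1 - Finsupp.single 1 1) := by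
        rw [map_sub, rt_single, rt_single, one_mul, mul_inv_cancel]
        abel
      rw [e, map_neg, hΛrt, iha, map_zero, neg_zero]
  have hc2 : ∀ i y z, π y = π z → Λ i (Finsupp.single y 1) = Λ i (Finsupp.single z 1) := by
    intro i y z h
    have e : (Finsupp.single y 1 - Finsupp.single z 1 : FreeGroup α →₀ ZMod 2) =
        rt z (Finsupp.single (y * z⁻¹) 1 - Finsupp.single 1 1) := by
      rw [map_sub, rt_single, rt_single, one_mul, inv_mul_cancel_right]
    have h1 : y * z⁻¹ ∈ π.ker := by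
      rw [MonoidHom.mem_ker, map_mul, map_inv, h, mul_inv_cancel]
    rw [← sub_eq_zero, ← map_sub, e, hΛrt, hc1 _ h1, map_zero]
  have hc3 : ∀ i z, Finsupp.mapDomain π z = 0 → Λ i z = 0 := by
    intro i z hz
    have h1 : Λ i ∘ₗ (Finsupp.lmapDomain (ZMod 2) (ZMod 2) (rep ∘ π)) = Λ i := by
      apply Finsupp.lhom_ext
      intro e a
      rw [LinearMap.comp_apply, Finsupp.lmapDomain_apply, Finsupp.mapDomain_single]
      have h2 := hc2 i ((rep ∘ π) e) e (hrep (π e))
      have h3 : ∀ e : FreeGroup α, (Finsupp.single e a : FreeGroup α →₀ ZMod 2) =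
          a • Finsupp.single e 1 := by
        intro e
        rw [Finsupp.smul_single, smul_eq_mul, mul_one]
      rw [h3, h3, map_smul, map_smul, h2]
    rw [← h1, LinearMap.comp_apply, Finsupp.lmapDomain_apply, Finsupp.mapDomain_comp, hz,
      Finsupp.mapDomain_zero, map_zero]
  have hkill : ∀ c ∈ I, LC (evF g c) = 0 := by
    intro c hc
    cases nonempty_fintype α
    rw [← Finset.univ_sum_single c, map_sum, map_sum]
    refine Finset.sum_eq_zero fun i _ => ?_
    rw [← hΛ]
    exact hc3 i (c i) (hc i)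
  have hfin4 : ∀ c, LC (evF g c) = 0 → Finsupp.mapDomain π (dd c x) = 0 := by
    intro c hc
    let cr : α → (FreeGroup α →₀ ZMod 2) := fun i =>
      Finsupp.mapDomain rep (Finsupp.mapDomain π (c i))
    have h1 : ∀ i, Finsupp.mapDomain π (cr i) = Finsupp.mapDomain π (c i) := by
      intro i
      simp only [cr]
      rw [← Finsupp.mapDomain_comp (f := rep) (g := π)]
      have : (π ∘ rep : Γ0 → Γ0) = id := funext hrep
      rw [this, Finsupp.mapDomain_id]
    have h2 : c - cr ∈ I := by
      rw [hI]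
      intro i
      rw [Pi.sub_apply]
      have := map_sub (Finsupp.lmapDomain (ZMod 2) (ZMod 2) π) (c i) (cr i)
      rw [Finsupp.lmapDomain_apply, Finsupp.lmapDomain_apply, Finsupp.lmapDomain_apply] at this
      rw [this, h1, sub_self]
    have h3 : LC (evF g cr) = 0 := by
      have h4 := hkill _ h2
      rw [map_sub, map_sub, hc, zero_sub, neg_eq_zero] at h4
      exact h4
    have h5 := hLC (evF g cr) (fun l y hy =>
      (hn1 ((fun i => Finsupp.mapDomain π (c i)), l) y hy).trans (le_max_left _ _))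
    rw [h3, ZeroMemClass.coe_zero, eq_comm, Submodule.Quotient.mk_eq_zero] at h5
    obtain ⟨c2, hc2, he⟩ := h5
    have hsub : ∀ a b : α → (FreeGroup α →₀ ZMod 2), dd (a - b) x = dd a x - dd b x :=
      fun a b => map_sub (ev x) a b
    have hms : ∀ a b : FreeGroup α →₀ ZMod 2, Finsupp.mapDomain π (a - b) =
        Finsupp.mapDomain π a - Finsupp.mapDomain π b :=
      fun a b => map_sub (Finsupp.lmapDomain (ZMod 2) (ZMod 2) π) a b
    have h6 : dd (c2 - cr) x = 0 := hinj _ (by rw [map_sub, he, sub_self])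
    have h7 : Finsupp.mapDomain π (dd cr x) = 0 := by
      rw [hsub, sub_eq_zero] at h6
      rw [← h6]
      exact hIdd c2 hc2 x
    have h8 := hIdd _ h2 x
    rw [hsub, hms, h7, sub_zero] at h8
    exact h8
  -- the big finite quotient
  have hWf : Finite W := Module.finite_of_finite (ZMod 2)
  have hLf : Finite (W ≃ₗ[ZMod 2] W) := Finite.of_injective (fun e : W ≃ₗ[ZMod 2] W => (e : W → W))
    DFunLike.coe_injective
  have hMf : Finite (W ≃ₗ[ZMod 2] W)ᵐᵒᵖ := Finite.of_equiv _ MulOpposite.opEquiv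
  let φ : FreeGroup α →* (W ≃ₗ[ZMod 2] W)ᵐᵒᵖ × Γ0 := (ract Y).prod π
  let Γ1 := φ.range
  have hΓ1 : Finite Γ1 := inferInstance
  let φ' : FreeGroup α →* Γ1 := φ.rangeRestrict
  have hφ's : Function.Surjective φ' := φ.rangeRestrict_surjective
  obtain ⟨π1, hπ1, hπ1o⟩ := hj Γ1 φ'
  let p : Γ1 →* Γ0 := (MonoidHom.snd _ _).comp Γ1.subtype
  have hpφ : ∀ y, p (φ' y) = π y := fun y => rfl
  have hps' : Function.Surjective p := by
    intro γ
    obtain ⟨y, hy⟩ := hπs γ
    exact ⟨φ' y, by rw [hpφ, hy]⟩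
  have hpπ : ∀ y, p (π1 y) = π0 y := by
    have h1 : IsOpen (((p.comp π1).ker : Subgroup G) : Set G) := by
      refine Subgroup.isOpen_mono (H₁ := π1.ker) ?_ hπ1o
      intro y hy
      rw [MonoidHom.mem_ker] at hy ⊢
      rw [MonoidHom.comp_apply, hy, map_one]
    refine eq_of_dense j hjd (p.comp π1) π0 h1 hπ0o ?_
    intro f
    rw [MonoidHom.comp_apply, hπ1, hpφ]
    rfl
  obtain ⟨C, hC, hCS, hCp⟩ := lift_der 𝒢 h𝒢 j hjd hj t Γ1 Γ0 π1 hπ1o p hps' C0 (by
      intro y z
      rw [hpπ]
      exact hC0 y z) (by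
      intro y hy
      have h1 : π0 y = 1 := by rw [← hpπ, hy, map_one]
      change tl (π0 y) v0 - v0 = 0
      rw [h1, tl_one, sub_self]) hC0S
  obtain ⟨rep1, hrep1⟩ := hφ's.hasRightInverse
  let c : α → (FreeGroup α →₀ ZMod 2) := fun i => Finsupp.mapDomain rep1 (C (j (FreeGroup.of i)))
  have hcm : ∀ i, Finsupp.mapDomain φ' (c i) = C (j (FreeGroup.of i)) := by
    intro i
    simp only [c]
    rw [← Finsupp.mapDomain_comp (f := rep1) (g := φ')]
    have : (φ' ∘ rep1 : Γ1 → Γ1) = id := funext hrep1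
    rw [this, Finsupp.mapDomain_id]
  have hev : ∀ y, Finsupp.mapDomain φ' (dd c y) = C (j y) := by
    apply der_ext φ'
    · intro y z
      rw [dd_der c y z, Finsupp.mapDomain_add, mapDomain_tl]
    · intro y z
      rw [map_mul, hC, hπ1]
    · intro i
      rw [dd_of, hcm]
  have hev0 : ∀ l, Finsupp.mapDomain φ' (evF g c l) = 0 := by
    intro l
    rw [evF_apply, hev]
    exact hCS _ (hg l)
  have hLC0 : LC (evF g c) = 0 := by
    rw [hLCa]
    refine Finset.sum_eq_zero fun l _ => ?_
    have h1 : LC1 l (evF g c l) = Finsupp.linearCombination (ZMod 2)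
        (fun γ : Γ1 => (γ.1.1).unop (qb l)) (Finsupp.mapDomain φ' (evF g c l)) := by
      rw [Finsupp.linearCombination_mapDomain]
      rfl
    rw [h1, hev0, map_zero]
  have h8 := hfin4 c hLC0
  apply hC0x
  rw [← hCp, ← hev, ← Finsupp.mapDomain_comp]
  exact h8

end main

end Run7.h900.Pile
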